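import Pool.Agent.H36.Trap.Sk
import Pool.Agent.H63.Trap.F1b

/-!
# TRAP, module F2: bounds on the heat kernel
-/

set_option autoImplicit false

namespace Pool.Agent.H99.Trap

open MeasureTheory ProbabilityTheory Filter
open scoped ENNReal NNReal Topology

namespace F2

theorem ff_eq (l : ℝ) (k : ℕ) : Pool.Agent.H99.Trap.ff l k = F2.ff (l / 2) k := by
  unfold Pool.Agent.H99.Trap.ff F2.ff
  refine tsum_congr fun j => ?_
  unfold P
  have : Real.exp (-l) = Real.exp (-(l / 2)) * Real.exp (-(l / 2)) := by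
    rw [← Real.exp_add]; congr 1; ring
  rw [this, pow_add, two_mul, pow_add, pow_add]
  ring

theorem hk_eq {l : ℝ} (z : Fin 3 → ℤ) :
    hk 3 l z = F2.ff (l / 3 / 2) (z 0).natAbs * F2.ff (l / 3 / 2) (z 1).natAbs *
      F2.ff (l / 3 / 2) (z 2).natAbs := by
  rw [hk_prod, ff_eq, ff_eq, ff_eq]

theorem fold_zero (a : ℤ) (x y : Fin 3 → ℤ) :
    (fold a x - fold a y) 0 = |x 0 - a| - |y 0 - a| := rfl

theorem fold_one (a : ℤ) (x y : Fin 3 → ℤ) : (fold a x - fold a y) 1 = (x - y) 1 := rfl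

theorem fold_two (a : ℤ) (x y : Fin 3 → ℤ) : (fold a x - fold a y) 2 = (x - y) 2 := rfl

end F2

theorem hk_fold {l : ℝ} (hl : 0 ≤ l) (a : ℤ) (x y : Fin 3 → ℤ) :
    hk 3 l (x - y) ≤ hk 3 l (fold a x - fold a y) := by
  rw [F2.hk_eq, F2.hk_eq, F2.fold_zero, F2.fold_one, F2.fold_two]
  have hμ : 0 ≤ l / 3 / 2 := by positivity
  refine mul_le_mul_of_nonneg_right (mul_le_mul_of_nonneg_right ?_ (F2.ff_nonneg hμ _))
    (F2.ff_nonneg hμ _)
  apply F2.ff_antitone hμ
  have h1 : (x - y) 0 = x 0 - y 0 := rfl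
  rw [h1]
  rcases abs_cases (x 0 - a) with h | h <;> rcases abs_cases (y 0 - a) with h' | h' <;> omega

namespace F2

theorem hk_le_bound {l : ℝ} (hl : 0 ≤ l) (z : Fin 3 → ℤ) :
    hk 3 l z ≤ 8 / ((1 + l) * √(1 + l)) := by
  have h1l : 0 < 1 + l := by linarith
  have hs0 : 0 < √(1 + l) := Real.sqrt_pos.2 h1l
  have hss : √(1 + l) ^ 2 = 1 + l := Real.sq_sqrt h1l.le
  rcases le_total l 3 with h3 | h3
  · refine (hk_le_one hl z).trans ?_
    rw [le_div_iff₀ (by positivity), one_mul]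
    have h2 : √(1 + l) ≤ 2 := by
      rw [Real.sqrt_le_left (by norm_num)]; linarith
    nlinarith
  · have hμ : 0 ≤ l / 3 / 2 := by positivity
    have hl3 : 0 < l / 3 := by positivity
    have hf0 := ff_zero_le hl3
    have hb : ∀ k, F2.ff (l / 3 / 2) k ≤ 1 / √(l / 3) := fun k =>
      (ff_antitone hμ (Nat.zero_le k)).trans hf0
    have hp := fun k => ff_nonneg hμ k
    have hr0 : 0 < √(l / 3) := Real.sqrt_pos.2 hl3
    have hrr : √(l / 3) ^ 2 = l / 3 := Real.sq_sqrt hl3.le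
    rw [hk_eq]
    have h1 : F2.ff (l / 3 / 2) (z 0).natAbs * F2.ff (l / 3 / 2) (z 1).natAbs *
        F2.ff (l / 3 / 2) (z 2).natAbs ≤ (1 / √(l / 3)) * (1 / √(l / 3)) * (1 / √(l / 3)) := by
      refine mul_le_mul (mul_le_mul (hb _) (hb _) (hp _) (by positivity)) (hb _) (hp _)
        (by positivity)
    refine h1.trans ?_
    have h2 : √(1 + l) ≤ 2 * √(l / 3) := by
      rw [Real.sqrt_le_left (by positivity), mul_pow, hrr]
      linarith
    have h3 : (1 / √(l / 3)) * (1 / √(l / 3)) * (1 / √(l / 3)) = 1 / √(l / 3) ^ 3 := by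
      field_simp
    rw [h3, div_le_div_iff₀ (by positivity) (by positivity), one_mul]
    have h4 : (1 + l) * √(1 + l) = √(1 + l) ^ 3 := by
      rw [pow_succ, hss]
    rw [h4]
    calc √(1 + l) ^ 3 ≤ (2 * √(l / 3)) ^ 3 := by gcongr
      _ = 8 * √(l / 3) ^ 3 := by ring

theorem bound_integral {ρ : ℝ} (hρ : 0 < ρ) {s : ℝ} (hs : 0 ≤ s) :
    ∫ r in (0:ℝ)..s, 8 / ((1 + ρ * (s - r)) * √(1 + ρ * (s - r))) ≤ 16 / ρ := by
  have hpos : ∀ r ∈ Set.Icc 0 s, 0 < 1 + ρ * (s - r) := by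
    intro r hr
    have : 0 ≤ ρ * (s - r) := mul_nonneg hρ.le (by linarith [hr.2])
    linarith
  have hd : ∀ r ∈ Set.uIcc 0 s, HasDerivAt (fun r => 16 / ρ * (√(1 + ρ * (s - r)))⁻¹)
      (8 / ((1 + ρ * (s - r)) * √(1 + ρ * (s - r)))) r := by
    intro r hr
    rw [Set.uIcc_of_le hs] at hr
    have hp := hpos r hr
    have h1 : HasDerivAt (fun r : ℝ => 1 + ρ * (s - r)) (-ρ) r := by
      have := (((hasDerivAt_id r).const_sub s).const_mul ρ).const_add 1
      simpa using this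
    have h2 := h1.sqrt hp.ne'
    have hsq : √(1 + ρ * (s - r)) ≠ 0 := (Real.sqrt_pos.2 hp).ne'
    have h3 := (h2.inv hsq).const_mul (16 / ρ)
    refine h3.congr_deriv ?_
    have hss : √(1 + ρ * (s - r)) ^ 2 = 1 + ρ * (s - r) := Real.sq_sqrt hp.le
    rw [hss]
    field_simp
    ring
  have hc : ContinuousOn (fun r => 8 / ((1 + ρ * (s - r)) * √(1 + ρ * (s - r))))
      (Set.uIcc 0 s) := by
    rw [Set.uIcc_of_le hs]
    refine ContinuousOn.div continuousOn_const (by fun_prop) ?_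
    intro r hr
    have hp := hpos r hr
    have := Real.sqrt_pos.2 hp
    positivity
  rw [intervalIntegral.integral_eq_sub_of_hasDerivAt hd hc.intervalIntegrable]
  have h1 : 0 ≤ 16 / ρ * (√(1 + ρ * (s - 0)))⁻¹ := by positivity
  simp only [sub_self, mul_zero, add_zero, Real.sqrt_one, inv_one, mul_one]
  linarith

end F2

theorem hk_int_bound {ρ : ℝ} (hρ : 0 < ρ) : ∃ G : ℝ, ∀ (z : ℝ → Fin 3 → ℤ), Measurable z →
    ∀ s : ℝ, 0 ≤ s → ∫ r in (0:ℝ)..s, hk 3 (ρ * (s - r)) (z r) ≤ G := by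
  refine ⟨16 / ρ, fun z hz s hs => ?_⟩
  refine le_trans ?_ (F2.bound_integral hρ hs)
  have hpos : ∀ r ∈ Set.Icc 0 s, 0 < 1 + ρ * (s - r) := by
    intro r hr
    have : 0 ≤ ρ * (s - r) := mul_nonneg hρ.le (by linarith [hr.2])
    linarith
  refine intervalIntegral.integral_mono_on hs ?_ ?_ ?_
  · rw [intervalIntegrable_iff_integrableOn_Ioc_of_le hs]
    refine Measure.integrableOn_of_bounded (M := 1) (by simp) ?_ ?_
    · have : Measurable (fun r => hk 3 (ρ * (s - r)) (z r)) :=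
        (measurable_hk 3).comp (Measurable.prodMk (by fun_prop) hz)
      exact this.aestronglyMeasurable
    · refine (ae_restrict_iff' measurableSet_Ioc).2 (Filter.Eventually.of_forall fun r hr => ?_)
      have h0 : 0 ≤ ρ * (s - r) := mul_nonneg hρ.le (by linarith [hr.2])
      rw [Real.norm_eq_abs, abs_of_nonneg (hk_nonneg h0 _)]
      exact hk_le_one h0 _
  · refine ContinuousOn.intervalIntegrable ?_
    rw [Set.uIcc_of_le hs]
    refine ContinuousOn.div continuousOn_const (by fun_prop) ?_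
    intro r hr
    have hp := hpos r hr
    have := Real.sqrt_pos.2 hp
    positivity
  · intro r hr
    exact F2.hk_le_bound (mul_nonneg hρ.le (by linarith [hr.2])) _

namespace F2

theorem exp_neg_three : Real.exp (-3) ≤ 1 / 19 := by
  have h := Real.exp_one_gt_d9
  have h2 : Real.exp 3 = Real.exp 1 ^ 3 := by rw [← Real.exp_nat_mul]; norm_num
  rw [Real.exp_neg, ← one_div]
  apply one_div_le_one_div_of_le (by norm_num)
  rw [h2]
  calc (19 : ℝ) ≤ 2.7 ^ 3 := by norm_num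
    _ ≤ Real.exp 1 ^ 3 := by gcongr; linarith

theorem exp_neg_six : Real.exp (-6) ≤ 1 / 361 := by
  have h : Real.exp (-6) = Real.exp (-3) * Real.exp (-3) := by rw [← Real.exp_add]; norm_num
  rw [h]
  have := exp_neg_three
  have h0 := Real.exp_pos (-3)
  calc Real.exp (-3) * Real.exp (-3) ≤ 1 / 19 * (1 / 19) := by gcongr
    _ = 1 / 361 := by norm_num

/-- lower bound of the kernel near the origin -/
theorem low {l : ℝ} (hl : 400 ≤ l) (K : ℕ) (hK : (K : ℝ) ≤ √l / 5) :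
    1 / (20 * √l) ≤ F2.ff (l / 2) K := by
  have hμ : 0 ≤ l / 2 := by linarith
  set s := √l with hs
  have hs20 : 20 ≤ s := by
    rw [hs, Real.le_sqrt (by norm_num) (by linarith)]; linarith
  have hs0 : 0 < s := by linarith
  set m := ⌈4 * s⌉₊ with hm
  have hm1 : 4 * s ≤ m := Nat.le_ceil _
  have hm2 : (m : ℝ) < 4 * s + 1 := Nat.ceil_lt_add_one (by positivity)
  have hmass := mass (l := l) (by linarith) m
  have he : Real.exp (1 - m / √l) ≤ 1 / 19 := by
    refine le_trans (Real.exp_le_exp.2 ?_) exp_neg_three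
    rw [← hs]
    have : 4 ≤ m / s := by rw [le_div_iff₀ hs0]; exact hm1
    linarith
  have hf0 : F2.ff (l / 2) 0 ≤ 1 / s := ff_zero_le (by linarith)
  have hKm : K + 1 ≤ m := by
    have : (K : ℝ) + 1 ≤ m := by nlinarith
    exact_mod_cast this
  have hsum : ∑ k ∈ Finset.Ico 1 m, F2.ff (l / 2) k ≤
      K * F2.ff (l / 2) 0 + m * F2.ff (l / 2) K := by
    rw [← Finset.sum_Ico_consecutive _ (show 1 ≤ K + 1 by omega) hKm]
    refine add_le_add ?_ ?_
    · refine (Finset.sum_le_card_nsmul _ _ (F2.ff (l / 2) 0) fun k _ =>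
        ff_antitone hμ (Nat.zero_le k)).trans ?_
      rw [Nat.card_Ico, nsmul_eq_mul]
      simp
    · refine (Finset.sum_le_card_nsmul _ _ (F2.ff (l / 2) K) fun k hk => ?_).trans ?_
      · rw [Finset.mem_Ico] at hk
        exact ff_antitone hμ (by omega)
      · rw [Nat.card_Ico, nsmul_eq_mul]
        refine mul_le_mul_of_nonneg_right ?_ (ff_nonneg hμ K)
        exact_mod_cast Nat.sub_le m (K + 1)
  have hf00 := ff_nonneg hμ 0
  have h1 : (1 + 2 * K) * F2.ff (l / 2) 0 ≤ 9 / 20 := by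
    calc (1 + 2 * K) * F2.ff (l / 2) 0 ≤ (1 + 2 * K) * (1 / s) := by gcongr
      _ = (1 + 2 * K) / s := by ring
      _ ≤ 9 / 20 := by
          rw [div_le_iff₀ hs0]
          nlinarith
  have h2 : 2 * m * F2.ff (l / 2) K ≥ 4 / 9 := by nlinarith
  have h3 : (m : ℝ) ≤ 81 / 20 * s := by linarith
  have hfK := ff_nonneg hμ K
  rw [div_le_iff₀ (by positivity)]
  nlinarith [mul_le_mul_of_nonneg_right h3 hfK]

/-- the sum over the parity class -/
theorem parity_sum {f : ℕ → ℝ} (hf : Antitone f) (k : ℕ) :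
    ∑ i ∈ Finset.Ico 1 (k + 2), f i ≤
      ∑ j ∈ Finset.range (k + 1), f ((k : ℤ) - 2 * j).natAbs := by
  induction k using Nat.twoStepInduction with
  | zero =>
    simp
    exact hf (by norm_num)
  | one =>
    simp [Finset.sum_range_succ, Finset.sum_Ico_succ_top]
    exact hf (by norm_num)
  | more k ih _ =>
    rw [Finset.sum_Ico_succ_top (by omega), Finset.sum_Ico_succ_top (by omega)]
    rw [Finset.sum_range_succ, Finset.sum_range_succ']
    have h1 : ∀ j : ℕ, (((k + 2 : ℕ) : ℤ) - 2 * ((j + 1 : ℕ) : ℤ)).natAbs =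
        ((k : ℤ) - 2 * j).natAbs := by
      intro j; push_cast; congr 1; ring
    simp only [h1]
    have h2 : (((k + 2 : ℕ) : ℤ) - 2 * ((0 : ℕ) : ℤ)).natAbs = k + 2 := by push_cast; omega
    have h3 : ((k : ℤ) - 2 * ((k + 1 : ℕ) : ℤ)).natAbs = k + 2 := by
      push_cast; omega
    rw [h2, h3]
    have h4 := hf (show k + 2 ≤ k + 1 + 2 by omega)
    linarith

theorem gain_sum {l : ℝ} (hl : 400 ≤ l) (k : ℕ) (hk : 16 * √l ≤ k) :
    2 / 5 ≤ ∑ j ∈ Finset.range (k + 1),
      (F2.ff (l / 2) ((k : ℤ) - 2 * j).natAbs - F2.ff (l / 2) k) := by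
  have hμ : 0 ≤ l / 2 := by linarith
  set s := √l with hs
  have hs20 : 20 ≤ s := by
    rw [hs, Real.le_sqrt (by norm_num) (by linarith)]; linarith
  have hs0 : 0 < s := by linarith
  have hf0 : F2.ff (l / 2) 0 ≤ 1 / s := ff_zero_le (by linarith)
  have hf1 : 1 / s ≤ 1 / 20 := one_div_le_one_div_of_le (by norm_num) hs20
  have hmass := mass (l := l) (by linarith) (k + 2)
  have he : Real.exp (1 - ((k + 2 : ℕ) : ℝ) / √l) ≤ 1 / 361 := by
    refine le_trans (Real.exp_le_exp.2 ?_) exp_neg_six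
    rw [← hs]
    have : 7 ≤ ((k + 2 : ℕ) : ℝ) / s := by
      rw [le_div_iff₀ hs0]; push_cast; nlinarith
    linarith
  have hpar := parity_sum (ff_antitone hμ) k
  -- (k+1) f(k) is small
  set h := k / 2 with hh
  have hh1 : (k : ℝ) ≤ 2 * h + 1 := by
    have : k ≤ 2 * h + 1 := by omega
    exact_mod_cast this
  have htail := tail (l := l) (by linarith) h (k + 1)
  have he2 : Real.exp (1 - (h : ℝ) / √l) ≤ 1 / 361 := by
    refine le_trans (Real.exp_le_exp.2 ?_) exp_neg_six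
    rw [← hs]
    have : 7 ≤ (h : ℝ) / s := by
      rw [le_div_iff₀ hs0]; nlinarith
    linarith
  have hlow : ((k + 1 : ℕ) : ℝ) / 2 * F2.ff (l / 2) k ≤ ∑ i ∈ Finset.Ico h (k + 1), F2.ff (l / 2) i := by
    refine le_trans ?_ (Finset.card_nsmul_le_sum _ _ (F2.ff (l / 2) k) fun i hi => ?_)
    · rw [Nat.card_Ico, nsmul_eq_mul]
      refine mul_le_mul_of_nonneg_right ?_ (ff_nonneg hμ k)
      have h2 : k + 1 ≤ 2 * (k + 1 - h) := by omega
      have h3 : ((k + 1 : ℕ) : ℝ) ≤ 2 * ((k + 1 - h : ℕ) : ℝ) := by exact_mod_cast h2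
      linarith
    · rw [Finset.mem_Ico] at hi
      exact ff_antitone hμ (by omega)
  rw [Finset.sum_sub_distrib, Finset.sum_const, Finset.card_range, nsmul_eq_mul]
  have h00 := ff_nonneg hμ 0
  linarith

end F2

theorem gain_lower : ∃ c C θ l0 : ℝ, 0 < c ∧ 0 < C ∧ 0 < θ ∧ 0 < l0 ∧ ∀ l ≥ l0,
    ∀ x y : Fin 3 → ℤ, C * √l ≤ |(x 0 : ℝ) - y 0| → |(x 1 : ℝ) - y 1| ≤ θ * √l →
      |(x 2 : ℝ) - y 2| ≤ θ * √l → ENNReal.ofReal (c / l) ≤ gain l x y := by
  refine ⟨3 / 1000, 16, 1 / 10, 1200, by norm_num, by norm_num, by norm_num, by norm_num, ?_⟩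
  intro l hl x y h0 h1 h2
  have hl0 : 0 < l := by linarith
  set lam := l / 3 with hlam
  have hlam400 : 400 ≤ lam := by rw [hlam]; linarith
  have hμ : 0 ≤ lam / 2 := by linarith
  have hsl : √lam ≤ √l := Real.sqrt_le_sqrt (by rw [hlam]; linarith)
  have hsl2 : √l ≤ 2 * √lam := by
    rw [Real.sqrt_le_left (by positivity), mul_pow, Real.sq_sqrt (by linarith)]
    rw [hlam]; linarith
  have hs0 : 0 < √lam := Real.sqrt_pos.2 (by linarith)
  have hss : √lam ^ 2 = lam := Real.sq_sqrt (by linarith)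
  set k := (x 0 - y 0).natAbs with hkd
  have hkr : (k : ℝ) = |(x 0 : ℝ) - y 0| := by
    rw [hkd, Nat.cast_natAbs]; push_cast; rfl
  have hk16 : 16 * √lam ≤ k := by rw [hkr]; linarith
  have hK : ∀ i : Fin 3, |(x i : ℝ) - y i| ≤ 1 / 10 * √l →
      (((x - y) i).natAbs : ℝ) ≤ √lam / 5 := by
    intro i hi
    have e : (((x - y) i).natAbs : ℝ) = |(x i : ℝ) - y i| := by
      rw [Nat.cast_natAbs, Pi.sub_apply]; push_cast; rfl
    rw [e]
    linarith
  have hlow1 := F2.low hlam400 _ (hK 1 h1)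
  have hlow2 := F2.low hlam400 _ (hK 2 h2)
  have hgs := F2.gain_sum hlam400 k hk16
  set b := min (x 0) (y 0) with hb
  have hterm : ∀ j ∈ Finset.range (k + 1),
      hk 3 l (fold (b + j) x - fold (b + j) y) - hk 3 l (x - y) =
      (F2.ff (lam / 2) ((k : ℤ) - 2 * j).natAbs - F2.ff (lam / 2) k) *
        (F2.ff (lam / 2) ((x - y) 1).natAbs * F2.ff (lam / 2) ((x - y) 2).natAbs) := by
    intro j hj
    rw [Finset.mem_range] at hj
    rw [F2.hk_eq, F2.hk_eq, F2.fold_zero, F2.fold_one, F2.fold_two, ← hlam]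
    have e0 : ((x - y) 0).natAbs = k := rfl
    have e1 : (|x 0 - (b + j)| - |y 0 - (b + j)|).natAbs = ((k : ℤ) - 2 * j).natAbs := by
      have hk' : (k : ℤ) = |x 0 - y 0| := by rw [hkd]; exact Int.natCast_natAbs _
      rcases le_total (x 0) (y 0) with h | h
      · have hb' : b = x 0 := by rw [hb]; exact min_eq_left h
        have : (k : ℤ) = y 0 - x 0 := by rw [hk', abs_of_nonpos (by linarith)]; ring
        rw [hb']
        rw [show x 0 - (x 0 + (j : ℤ)) = -(j : ℤ) by ring, abs_neg, abs_of_nonneg (by omega),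
          abs_of_nonneg (show 0 ≤ y 0 - (x 0 + (j : ℤ)) by omega)]
        omega
      · have hb' : b = y 0 := by rw [hb]; exact min_eq_right h
        have : (k : ℤ) = x 0 - y 0 := by rw [hk', abs_of_nonneg (by linarith)]
        rw [hb']
        rw [show y 0 - (y 0 + (j : ℤ)) = -(j : ℤ) by ring, abs_neg,
          abs_of_nonneg (show 0 ≤ (j : ℤ) by omega),
          abs_of_nonneg (show 0 ≤ x 0 - (y 0 + (j : ℤ)) by omega)]
        omega
    rw [e0, e1]
    ring
  have hnn : ∀ j ∈ Finset.range (k + 1),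
      0 ≤ hk 3 l (fold (b + j) x - fold (b + j) y) - hk 3 l (x - y) := by
    intro j _
    have := hk_fold hl0.le (b + j) x y
    linarith
  have hsum : ENNReal.ofReal (∑ j ∈ Finset.range (k + 1),
      (hk 3 l (fold (b + j) x - fold (b + j) y) - hk 3 l (x - y))) ≤ gain l x y := by
    rw [ENNReal.ofReal_sum_of_nonneg hnn]
    unfold gain
    have hinj : Set.InjOn (fun j : ℕ => b + (j : ℤ)) (Finset.range (k + 1)) := by
      intro i _ j _ hij
      simpa using hij
    rw [← Finset.sum_image (f := fun a : ℤ =>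
      ENNReal.ofReal (hk 3 l (fold a x - fold a y) - hk 3 l (x - y))) hinj]
    exact ENNReal.sum_le_tsum _
  refine le_trans (ENNReal.ofReal_le_ofReal ?_) hsum
  rw [Finset.sum_congr rfl hterm, ← Finset.sum_mul]
  have hp : (1 / (20 * √lam)) * (1 / (20 * √lam)) ≤
      F2.ff (lam / 2) ((x - y) 1).natAbs * F2.ff (lam / 2) ((x - y) 2).natAbs :=
    mul_le_mul hlow1 hlow2 (by positivity) (F2.ff_nonneg hμ _)
  have e : 3 / 1000 / l = 2 / 5 * ((1 / (20 * √lam)) * (1 / (20 * √lam))) := by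
    have h3 : (1 / (20 * √lam)) * (1 / (20 * √lam)) = 1 / (400 * √lam ^ 2) := by
      field_simp; ring
    rw [h3, hss, hlam]
    field_simp
    norm_num
  rw [e]
  exact mul_le_mul hgs hp (by positivity) (by linarith)

end Pool.Agent.H99.Trap
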