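import Mathlib

/-!
# The difference of two independent Poisson variables
-/

set_option autoImplicit false

namespace Pool.Agent.H99.Trap.F2

open scoped ENNReal NNReal Topology

/-- Poisson weights -/
noncomputable def P (μ : ℝ) (j : ℕ) : ℝ := Real.exp (-μ) * μ ^ j / j.factorial

/-- law of the difference of two independent Poisson(`μ`) variables -/
noncomputable def ff (μ : ℝ) (k : ℕ) : ℝ := ∑' j : ℕ, P μ j * P μ (j + k)

theorem P_nonneg {μ : ℝ} (hμ : 0 ≤ μ) (j : ℕ) : 0 ≤ P μ j := by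
  unfold P; positivity

theorem hasSum_exp_mul_P (μ θ : ℝ) :
    HasSum (fun j : ℕ => Real.exp (θ * j) * P μ j) (Real.exp (μ * (Real.exp θ - 1))) := by
  have h : HasSum (fun j : ℕ => Real.exp (-μ) * ((μ * Real.exp θ) ^ j / j.factorial))
      (Real.exp (-μ) * Real.exp (μ * Real.exp θ)) := by
    refine HasSum.mul_left _ ?_
    rw [Real.exp_eq_exp_ℝ]
    exact NormedSpace.expSeries_div_hasSum_exp (μ * NormedSpace.exp θ)
  have e : Real.exp (-μ) * Real.exp (μ * Real.exp θ) = Real.exp (μ * (Real.exp θ - 1)) := by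
    rw [← Real.exp_add]; congr 1; ring
  rw [e] at h
  refine h.congr_fun fun j => ?_
  unfold P
  rw [mul_comm θ, Real.exp_nat_mul, mul_pow]
  ring

theorem hasSum_P (μ : ℝ) : HasSum (P μ) 1 := by
  have h := hasSum_exp_mul_P μ 0
  simpa using h

theorem P_le_one {μ : ℝ} (hμ : 0 ≤ μ) (j : ℕ) : P μ j ≤ 1 :=
  le_hasSum (hasSum_P μ) j fun i _ => P_nonneg hμ i

theorem summable_ff {μ : ℝ} (hμ : 0 ≤ μ) (k : ℕ) :
    Summable (fun j : ℕ => P μ j * P μ (j + k)) :=
  Summable.of_nonneg_of_le (fun j => mul_nonneg (P_nonneg hμ j) (P_nonneg hμ _))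
    (fun j => mul_le_of_le_one_right (P_nonneg hμ j) (P_le_one hμ _)) (hasSum_P μ).summable

theorem ff_nonneg {μ : ℝ} (hμ : 0 ≤ μ) (k : ℕ) : 0 ≤ ff μ k :=
  tsum_nonneg fun j => mul_nonneg (P_nonneg hμ j) (P_nonneg hμ _)

theorem ff_le_one {μ : ℝ} (hμ : 0 ≤ μ) (k : ℕ) : ff μ k ≤ 1 := by
  rw [← (hasSum_P μ).tsum_eq]
  exact (summable_ff hμ k).tsum_le_tsum
    (fun j => mul_le_of_le_one_right (P_nonneg hμ j) (P_le_one hμ _)) (hasSum_P μ).summable

/-- log-concavity -/
theorem P_logconcave {μ : ℝ} (hμ : 0 ≤ μ) (j k : ℕ) :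
    P μ j * P μ (j + k + 1) ≤ P μ (j + k) * P μ (j + 1) := by
  unfold P
  have e1 : Real.exp (-μ) * μ ^ j / (j.factorial : ℝ) *
      (Real.exp (-μ) * μ ^ (j + k + 1) / ((j + k + 1).factorial : ℝ)) =
      Real.exp (-μ) ^ 2 * μ ^ (2 * j + k + 1) *
        (1 / ((j.factorial : ℝ) * ((j + k + 1).factorial : ℝ))) := by
    ring
  have e2 : Real.exp (-μ) * μ ^ (j + k) / ((j + k).factorial : ℝ) *
      (Real.exp (-μ) * μ ^ (j + 1) / ((j + 1).factorial : ℝ)) =
      Real.exp (-μ) ^ 2 * μ ^ (2 * j + k + 1) *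
        (1 / (((j + k).factorial : ℝ) * ((j + 1).factorial : ℝ))) := by
    ring
  rw [e1, e2]
  refine mul_le_mul_of_nonneg_left ?_ (by positivity)
  apply one_div_le_one_div_of_le (by positivity)
  rw [Nat.factorial_succ j, Nat.factorial_succ (j + k)]
  push_cast
  have h1 : (0 : ℝ) < (j.factorial : ℝ) * ((j + k).factorial : ℝ) := by positivity
  have h2 : (0 : ℝ) ≤ k := Nat.cast_nonneg k
  nlinarith [mul_nonneg h1.le h2]

theorem P_amgm {μ : ℝ} (hμ : 0 ≤ μ) (j k : ℕ) :
    P μ j * P μ (j + k + 1) ≤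
      (P μ j * P μ (j + k) + P μ (j + 1) * P μ (j + 1 + k)) / 2 := by
  have hc := P_logconcave hμ j k
  have e : j + 1 + k = j + k + 1 := by ring
  rw [e]
  have ha := P_nonneg hμ j
  have hb := P_nonneg hμ (j + 1)
  have hcc := P_nonneg hμ (j + k)
  have hd := P_nonneg hμ (j + k + 1)
  set a := P μ j
  set b := P μ (j + 1)
  set c := P μ (j + k)
  set d := P μ (j + k + 1)
  have h1 : (2 * (a * d)) ^ 2 ≤ (a * c + b * d) ^ 2 := by
    nlinarith [sq_nonneg (a * c - b * d), mul_le_mul_of_nonneg_left hc (mul_nonneg ha hd)]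
  have h2 := abs_le_of_sq_le_sq' h1 (by positivity)
  linarith [h2.2]

theorem ff_succ_le {μ : ℝ} (hμ : 0 ≤ μ) (k : ℕ) : ff μ (k + 1) ≤ ff μ k := by
  have h1 : ff μ (k + 1) ≤ ∑' j : ℕ, ((P μ j * P μ (j + k)) / 2 +
      (P μ (j + 1) * P μ (j + 1 + k)) / 2) := by
    refine (summable_ff hμ (k + 1)).tsum_le_tsum (fun j => ?_) ?_
    · have := P_amgm hμ j k
      rw [← add_assoc]
      linarith
    · exact ((summable_ff hμ k).div_const 2).add
        (((summable_nat_add_iff 1).2 (summable_ff hμ k)).div_const 2)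
  refine h1.trans ?_
  rw [((summable_ff hμ k).div_const 2).tsum_add
        (((summable_nat_add_iff 1).2 (summable_ff hμ k)).div_const 2), tsum_div_const,
    tsum_div_const]
  have h2 := (summable_ff hμ k).tsum_eq_zero_add
  have h3 : (0 : ℝ) ≤ P μ 0 * P μ (0 + k) := mul_nonneg (P_nonneg hμ 0) (P_nonneg hμ _)
  unfold ff
  linarith

theorem ff_antitone {μ : ℝ} (hμ : 0 ≤ μ) : Antitone (ff μ) :=
  antitone_nat_of_succ_le (ff_succ_le hμ)

theorem centralBinom_sq (j : ℕ) : (j.centralBinom) ^ 2 * (2 * j + 1) ≤ 16 ^ j := by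
  induction j with
  | zero => simp
  | succ j ih =>
    have h := Nat.succ_mul_centralBinom_succ j
    have h1 : ((j + 1) * (j + 1).centralBinom) ^ 2 * (2 * j + 3) =
        4 * (2 * j + 1) * (2 * j + 3) * (j.centralBinom ^ 2 * (2 * j + 1)) := by
      rw [h]; ring
    have h2 : (j + 1) ^ 2 * ((j + 1).centralBinom ^ 2 * (2 * (j + 1) + 1)) ≤
        (j + 1) ^ 2 * 16 ^ (j + 1) := by
      calc (j + 1) ^ 2 * ((j + 1).centralBinom ^ 2 * (2 * (j + 1) + 1))
          = ((j + 1) * (j + 1).centralBinom) ^ 2 * (2 * j + 3) := by ring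
        _ = 4 * (2 * j + 1) * (2 * j + 3) * (j.centralBinom ^ 2 * (2 * j + 1)) := h1
        _ ≤ 4 * (2 * j + 1) * (2 * j + 3) * 16 ^ j := Nat.mul_le_mul_left _ ih
        _ ≤ (16 * (j + 1) ^ 2) * 16 ^ j := by
            refine Nat.mul_le_mul_right _ ?_
            nlinarith
        _ = (j + 1) ^ 2 * 16 ^ (j + 1) := by ring
    exact Nat.le_of_mul_le_mul_left h2 (by positivity)

/-- `ff μ 0 ≤ 1/√l`, `l = 2 μ` -/
theorem ff_zero_le {l : ℝ} (hl : 0 < l) : ff (l / 2) 0 ≤ 1 / √l := by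
  set s := √l with hs
  have hs0 : 0 < s := Real.sqrt_pos.2 hl
  have hss : s ^ 2 = l := Real.sq_sqrt hl.le
  have key : ∀ j : ℕ, P (l / 2) j * P (l / 2) (j + 0) ≤
      Real.exp (-l) / (2 * s) * (l ^ (2 * j) / ((2 * j).factorial : ℝ)) +
        Real.exp (-l) / (2 * s) * (l ^ (2 * j + 1) / ((2 * j + 1).factorial : ℝ)) := by
    intro j
    have hcb : ((j.centralBinom : ℝ) / 4 ^ j) ^ 2 * (2 * j + 1) ≤ 1 := by
      rw [div_pow, ← pow_mul, mul_comm j 2, pow_mul]
      have := centralBinom_sq j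
      have h2 : ((j.centralBinom : ℝ)) ^ 2 * (2 * j + 1) ≤ 16 ^ j := by exact_mod_cast this
      rw [div_mul_eq_mul_div, div_le_one (by positivity)]
      norm_num
      exact h2
    have hc0 : 0 ≤ (j.centralBinom : ℝ) / 4 ^ j := by positivity
    set c := (j.centralBinom : ℝ) / 4 ^ j with hc
    -- c ≤ (1/s + s/(2j+1))/2
    have hm : (0 : ℝ) < 2 * j + 1 := by positivity
    have hc2 : c ≤ (1 / s + s / (2 * j + 1)) / 2 := by
      have h1 : (2 * c) ^ 2 ≤ (1 / s + s / (2 * j + 1)) ^ 2 := by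
        have h3 : c ^ 2 ≤ 1 / (2 * j + 1) := by
          rw [le_div_iff₀ hm]; exact hcb
        have h4 : (1 / s) * (s / (2 * j + 1)) = 1 / (2 * j + 1) := by
          field_simp
        nlinarith [sq_nonneg (1 / s - s / (2 * j + 1))]
      have h2 := abs_le_of_sq_le_sq' h1 (by positivity)
      linarith [h2.2]
    have hfac : ((2 * j).factorial : ℝ) = j.centralBinom * (j.factorial : ℝ) * j.factorial := by
      have := Nat.choose_mul_factorial_mul_factorial (n := 2 * j) (k := j) (by omega)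
      rw [show 2 * j - j = j by omega] at this
      rw [Nat.centralBinom_eq_two_mul_choose]
      exact_mod_cast this.symm
    have hfac2 : ((2 * j + 1).factorial : ℝ) = (2 * j + 1) * ((2 * j).factorial : ℝ) := by
      rw [Nat.factorial_succ]; push_cast; ring
    have e1 : P (l / 2) j * P (l / 2) (j + 0) =
        Real.exp (-l) * (l ^ (2 * j) / ((2 * j).factorial : ℝ)) * c := by
      unfold P
      have : Real.exp (-l) = Real.exp (-(l / 2)) * Real.exp (-(l / 2)) := by
        rw [← Real.exp_add]; congr 1; ring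
      rw [this, hc, hfac, add_zero]
      have hcbp : (j.centralBinom : ℝ) ≠ 0 := by
        exact_mod_cast (Nat.centralBinom_pos j).ne'
      have h4 : (4 : ℝ) ^ j = 2 ^ j * 2 ^ j := by rw [← mul_pow]; norm_num
      rw [h4, div_pow, two_mul j, pow_add]
      field_simp
    rw [e1]
    have h5 := mul_le_mul_of_nonneg_left hc2
      (show 0 ≤ Real.exp (-l) * (l ^ (2 * j) / ((2 * j).factorial : ℝ)) by positivity)
    refine h5.trans (le_of_eq ?_)
    rw [hfac2]
    have hl2 : l ^ (2 * j + 1) = l ^ (2 * j) * s ^ 2 := by rw [hss, pow_succ]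
    rw [hl2]
    field_simp
  have hc := Real.hasSum_cosh l
  have hsn := Real.hasSum_sinh l
  have hsum := (hc.mul_left (Real.exp (-l) / (2 * s))).add (hsn.mul_left (Real.exp (-l) / (2 * s)))
  have h1 : ff (l / 2) 0 ≤ Real.exp (-l) / (2 * s) * Real.cosh l +
      Real.exp (-l) / (2 * s) * Real.sinh l := by
    rw [← hsum.tsum_eq]
    exact (summable_ff (by positivity) 0).tsum_le_tsum key hsum.summable
  refine h1.trans ?_
  rw [← mul_add, Real.cosh_add_sinh, div_mul_eq_mul_div, ← Real.exp_add]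
  simp only [neg_add_cancel, Real.exp_zero]
  exact one_div_le_one_div_of_le hs0 (by linarith)

/-! ## exponential tails -/

theorem exp_le_one_add_two {x : ℝ} (h0 : 0 ≤ x) (h1 : x ≤ 1) : Real.exp x ≤ 1 + 2 * x := by
  have h := Real.exp_bound' h0 h1 (n := 2) (by norm_num)
  simp [Finset.sum_range_succ] at h
  norm_num at h
  nlinarith

/-- the exponential moment -/
theorem exp_moment {l : ℝ} (hl : 1 ≤ l) :
    Real.exp (l / 2 * (Real.exp (1 / √l) - 1)) * Real.exp (l / 2 * (Real.exp (-(1 / √l)) - 1)) ≤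
      Real.exp 1 := by
  rw [← Real.exp_add]
  apply Real.exp_le_exp.2
  have h0 : 0 < √l := Real.sqrt_pos.2 (by linarith)
  have hss : √l ^ 2 = l := Real.sq_sqrt (by linarith)
  have h1 : Real.cosh (1 / √l) ≤ Real.exp ((1 / √l) ^ 2 / 2) := Real.cosh_le_exp_half_sq _
  have h2 : (1 / √l) ^ 2 = 1 / l := by rw [div_pow, hss, one_pow]
  rw [h2] at h1
  have h3 : 1 / l ≤ 1 := by rw [div_le_one (by linarith)]; exact hl
  have h4 : 0 ≤ 1 / l := by positivity
  have h5 := exp_le_one_add_two (x := 1 / l / 2) (by linarith) (by linarith)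
  have h6 : Real.cosh (1 / √l) - 1 ≤ 1 / l := by linarith
  have h7 : l / 2 * (Real.exp (1 / √l) - 1) + l / 2 * (Real.exp (-(1 / √l)) - 1) =
      l * (Real.cosh (1 / √l) - 1) := by
    rw [Real.cosh_eq]; ring
  rw [h7]
  calc l * (Real.cosh (1 / √l) - 1) ≤ l * (1 / l) :=
        mul_le_mul_of_nonneg_left h6 (by linarith)
    _ = 1 := by field_simp

section ENN

/-- extended Poisson weights -/
noncomputable def p (μ : ℝ) (j : ℕ) : ℝ≥0∞ := ENNReal.ofReal (P μ j)

theorem tsum_p_exp {μ : ℝ} (hμ : 0 ≤ μ) (θ : ℝ) :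
    ∑' j : ℕ, p μ j * ENNReal.ofReal (Real.exp (θ * j)) =
      ENNReal.ofReal (Real.exp (μ * (Real.exp θ - 1))) := by
  rw [← (hasSum_exp_mul_P μ θ).tsum_eq, ENNReal.ofReal_tsum_of_nonneg
    (fun j => mul_nonneg (Real.exp_pos _).le (P_nonneg hμ j)) (hasSum_exp_mul_P μ θ).summable]
  refine tsum_congr fun j => ?_
  rw [p, ← ENNReal.ofReal_mul (P_nonneg hμ j), mul_comm]

theorem tsum_p {μ : ℝ} (hμ : 0 ≤ μ) : ∑' j : ℕ, p μ j = 1 := by
  have h := tsum_p_exp hμ 0
  simpa using h

theorem ofReal_ff {μ : ℝ} (hμ : 0 ≤ μ) (k : ℕ) :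
    ENNReal.ofReal (ff μ k) = ∑' j : ℕ, p μ j * p μ (j + k) := by
  unfold ff p
  rw [ENNReal.ofReal_tsum_of_nonneg (fun j => mul_nonneg (P_nonneg hμ j) (P_nonneg hμ _))
    (summable_ff hμ k)]
  exact tsum_congr fun j => ENNReal.ofReal_mul (P_nonneg hμ j)

/-- expectation over pairs -/
noncomputable def EE (μ : ℝ) (F : ℕ → ℕ → ℝ≥0∞) : ℝ≥0∞ := ∑' i : ℕ, ∑' j : ℕ, p μ i * p μ j * F i j

theorem EE_mono (μ : ℝ) {F G : ℕ → ℕ → ℝ≥0∞} (h : ∀ i j, F i j ≤ G i j) : EE μ F ≤ EE μ G :=
  ENNReal.tsum_le_tsum fun i => ENNReal.tsum_le_tsum fun j => mul_le_mul_right (h i j) _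

theorem EE_add (μ : ℝ) (F G : ℕ → ℕ → ℝ≥0∞) :
    EE μ (fun i j => F i j + G i j) = EE μ F + EE μ G := by
  unfold EE
  rw [← ENNReal.tsum_add]
  refine tsum_congr fun i => ?_
  rw [← ENNReal.tsum_add]
  exact tsum_congr fun j => mul_add _ _ _

theorem EE_const_mul (μ : ℝ) (c : ℝ≥0∞) (F : ℕ → ℕ → ℝ≥0∞) :
    EE μ (fun i j => c * F i j) = c * EE μ F := by
  unfold EE
  rw [← ENNReal.tsum_mul_left]
  refine tsum_congr fun i => ?_
  rw [← ENNReal.tsum_mul_left]
  exact tsum_congr fun j => by ring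

theorem EE_sum (μ : ℝ) (s : Finset ℕ) (F : ℕ → ℕ → ℕ → ℝ≥0∞) :
    EE μ (fun i j => ∑ k ∈ s, F k i j) = ∑ k ∈ s, EE μ (F k) := by
  classical
  induction s using Finset.induction_on with
  | empty => simp [EE]
  | insert a s ha ih =>
    simp only [Finset.sum_insert ha]
    rw [EE_add, ih]

theorem EE_one {μ : ℝ} (hμ : 0 ≤ μ) : EE μ (fun _ _ => 1) = 1 := by
  unfold EE
  simp only [mul_one, ENNReal.tsum_mul_left, tsum_p hμ]

theorem EE_swap (μ : ℝ) (F : ℕ → ℕ → ℝ≥0∞) : EE μ (fun i j => F j i) = EE μ F := by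
  unfold EE
  rw [ENNReal.tsum_comm]
  exact tsum_congr fun i => tsum_congr fun j => by rw [mul_comm (p μ j)]

theorem EE_diag {μ : ℝ} (hμ : 0 ≤ μ) (k : ℕ) :
    EE μ (fun i j => if i = j + k then 1 else 0) = ENNReal.ofReal (ff μ k) := by
  rw [← EE_swap]
  unfold EE
  rw [ofReal_ff hμ]
  refine tsum_congr fun j => ?_
  rw [tsum_eq_single (j + k)]
  · simp
  · intro i hi
    simp [hi]

theorem EE_diag' {μ : ℝ} (hμ : 0 ≤ μ) (k : ℕ) :
    EE μ (fun i j => if j = i + k then 1 else 0) = ENNReal.ofReal (ff μ k) := by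
  rw [← EE_diag hμ k, ← EE_swap]

theorem EE_exp {μ : ℝ} (hμ : 0 ≤ μ) (θ : ℝ) :
    EE μ (fun i j => ENNReal.ofReal (Real.exp (θ * i)) * ENNReal.ofReal (Real.exp (-θ * j))) =
      ENNReal.ofReal (Real.exp (μ * (Real.exp θ - 1))) *
        ENNReal.ofReal (Real.exp (μ * (Real.exp (-θ) - 1))) := by
  rw [← tsum_p_exp hμ θ, ← tsum_p_exp hμ (-θ), ← ENNReal.tsum_mul_right]
  unfold EE
  refine tsum_congr fun i => ?_
  rw [← ENNReal.tsum_mul_left]
  exact tsum_congr fun j => by ring

theorem EE_exp_le {l : ℝ} (hl : 1 ≤ l) (m : ℕ) :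
    EE (l / 2) (fun i j => ENNReal.ofReal (Real.exp (-(m / √l))) *
      (ENNReal.ofReal (Real.exp (1 / √l * i)) * ENNReal.ofReal (Real.exp (-(1 / √l) * j)))) ≤
      ENNReal.ofReal (Real.exp (1 - m / √l)) := by
  rw [EE_const_mul, EE_exp (by linarith), ← ENNReal.ofReal_mul (Real.exp_pos _).le,
    ← ENNReal.ofReal_mul (Real.exp_pos _).le]
  apply ENNReal.ofReal_le_ofReal
  have h := exp_moment hl
  calc Real.exp (-(m / √l)) * (Real.exp (l / 2 * (Real.exp (1 / √l) - 1)) *
        Real.exp (l / 2 * (Real.exp (-(1 / √l)) - 1)))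
      ≤ Real.exp (-(m / √l)) * Real.exp 1 := mul_le_mul_of_nonneg_left h (Real.exp_pos _).le
    _ = Real.exp (1 - m / √l) := by rw [← Real.exp_add]; congr 1; ring

theorem ind_le {l : ℝ} (hl : 1 ≤ l) {m i j : ℕ} (h : j + m ≤ i) :
    1 ≤ ENNReal.ofReal (Real.exp (-(m / √l))) *
      (ENNReal.ofReal (Real.exp (1 / √l * i)) * ENNReal.ofReal (Real.exp (-(1 / √l) * j))) := by
  rw [← ENNReal.ofReal_mul (Real.exp_pos _).le, ← ENNReal.ofReal_mul (Real.exp_pos _).le,
    ← ENNReal.ofReal_one]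
  apply ENNReal.ofReal_le_ofReal
  rw [← Real.exp_add, ← Real.exp_add]
  apply Real.one_le_exp
  have h0 : 0 < √l := Real.sqrt_pos.2 (by linarith)
  have h1 : (j : ℝ) + m ≤ i := by exact_mod_cast h
  have h2 : -(m / √l) + (1 / √l * i + -(1 / √l) * j) = (i - j - m) / √l := by ring
  rw [h2]
  apply div_nonneg (by linarith) h0.le

/-- tail bound -/
theorem tail {l : ℝ} (hl : 1 ≤ l) (m n : ℕ) :
    ∑ k ∈ Finset.Ico m n, ff (l / 2) k ≤ Real.exp (1 - m / √l) := by
  have hμ : 0 ≤ l / 2 := by linarith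
  have h1 : ∑ k ∈ Finset.Ico m n, ENNReal.ofReal (ff (l / 2) k) ≤
      ENNReal.ofReal (Real.exp (1 - m / √l)) := by
    have h2 : ∑ k ∈ Finset.Ico m n, ENNReal.ofReal (ff (l / 2) k) =
        EE (l / 2) (fun i j => ∑ k ∈ Finset.Ico m n, if i = j + k then 1 else 0) := by
      rw [EE_sum]
      exact Finset.sum_congr rfl fun k _ => (EE_diag hμ k).symm
    rw [h2]
    refine le_trans (EE_mono _ fun i j => ?_) (EE_exp_le hl m)
    by_cases h : j + m ≤ i
    · refine le_trans ?_ (ind_le hl h)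
      calc ∑ k ∈ Finset.Ico m n, (if i = j + k then (1 : ℝ≥0∞) else 0)
          ≤ ∑ k ∈ Finset.Ico m n, (if k = i - j then (1 : ℝ≥0∞) else 0) := by
            refine Finset.sum_le_sum fun k _ => ?_
            split_ifs with h1 h2
            · exact le_rfl
            · omega
            · exact zero_le_one
            · exact le_rfl
        _ ≤ 1 := by
            rw [Finset.sum_ite_eq']
            split_ifs
            · exact le_rfl
            · exact zero_le_one
    · rw [Finset.sum_eq_zero]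
      · exact zero_le
      · intro k hk
        rw [Finset.mem_Ico] at hk
        rw [if_neg (by omega)]
  rw [← ENNReal.ofReal_sum_of_nonneg (fun k _ => ff_nonneg hμ k)] at h1
  exact (ENNReal.ofReal_le_ofReal_iff (Real.exp_pos _).le).1 h1

/-- almost all the mass is near `0` -/
theorem mass {l : ℝ} (hl : 1 ≤ l) (m : ℕ) :
    1 ≤ ff (l / 2) 0 + 2 * ∑ k ∈ Finset.Ico 1 m, ff (l / 2) k + 2 * Real.exp (1 - m / √l) := by
  have hμ : 0 ≤ l / 2 := by linarith
  have h1 : (1 : ℝ≥0∞) ≤ ENNReal.ofReal (ff (l / 2) 0) +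
      ((∑ k ∈ Finset.Ico 1 m, ENNReal.ofReal (ff (l / 2) k)) +
        ∑ k ∈ Finset.Ico 1 m, ENNReal.ofReal (ff (l / 2) k)) +
      (ENNReal.ofReal (Real.exp (1 - m / √l)) + ENNReal.ofReal (Real.exp (1 - m / √l))) := by
    have e1 : ∑ k ∈ Finset.Ico 1 m, ENNReal.ofReal (ff (l / 2) k) =
        EE (l / 2) (fun i j => ∑ k ∈ Finset.Ico 1 m, if i = j + k then 1 else 0) := by
      rw [EE_sum]
      exact Finset.sum_congr rfl fun k _ => (EE_diag hμ k).symm
    have e2 : ∑ k ∈ Finset.Ico 1 m, ENNReal.ofReal (ff (l / 2) k) =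
        EE (l / 2) (fun i j => ∑ k ∈ Finset.Ico 1 m, if j = i + k then 1 else 0) := by
      rw [EE_sum]
      exact Finset.sum_congr rfl fun k _ => (EE_diag' hμ k).symm
    have e3 : ENNReal.ofReal (ff (l / 2) 0) =
        EE (l / 2) (fun i j => if i = j + 0 then 1 else 0) := (EE_diag hμ 0).symm
    have t1 := EE_exp_le hl m
    have t2 := EE_exp_le hl m
    rw [← EE_swap] at t2
    calc (1 : ℝ≥0∞) = EE (l / 2) (fun _ _ => 1) := (EE_one hμ).symm
      _ ≤ EE (l / 2) (fun i j => (if i = j + 0 then 1 else 0) +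
          ((∑ k ∈ Finset.Ico 1 m, if i = j + k then 1 else 0) +
            ∑ k ∈ Finset.Ico 1 m, if j = i + k then 1 else 0) +
          (ENNReal.ofReal (Real.exp (-(m / √l))) *
            (ENNReal.ofReal (Real.exp (1 / √l * i)) * ENNReal.ofReal (Real.exp (-(1 / √l) * j))) +
          ENNReal.ofReal (Real.exp (-(m / √l))) *
            (ENNReal.ofReal (Real.exp (1 / √l * j)) *
              ENNReal.ofReal (Real.exp (-(1 / √l) * i))))) := by
          refine EE_mono _ fun i j => ?_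
          by_cases h : j + m ≤ i
          · refine le_trans (ind_le hl h) ?_
            refine le_trans le_self_add (le_add_self)
          · by_cases h' : i + m ≤ j
            · refine le_trans (ind_le hl h') ?_
              refine le_trans le_add_self (le_add_self)
            · refine le_trans ?_ le_self_add
              rcases lt_trichotomy i j with hij | hij | hij
              · refine le_trans ?_ le_add_self
                refine le_trans ?_ le_add_self
                have hk : j - i ∈ Finset.Ico 1 m := by rw [Finset.mem_Ico]; omega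
                refine le_trans (le_of_eq ?_) (Finset.single_le_sum
                  (f := fun k => if j = i + k then (1 : ℝ≥0∞) else 0) (fun _ _ => zero_le) hk)
                rw [if_pos (by omega)]
              · refine le_trans (le_of_eq ?_) le_self_add
                rw [if_pos (by omega)]
              · refine le_trans ?_ le_add_self
                refine le_trans ?_ le_self_add
                have hk : i - j ∈ Finset.Ico 1 m := by rw [Finset.mem_Ico]; omega
                refine le_trans (le_of_eq ?_) (Finset.single_le_sum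
                  (f := fun k => if i = j + k then (1 : ℝ≥0∞) else 0) (fun _ _ => zero_le) hk)
                rw [if_pos (by omega)]
      _ ≤ _ := by
          rw [EE_add, EE_add, EE_add, EE_add, ← e1, ← e3]
          have e2' := e2
          rw [e1] at e2'
          rw [← e2', ← e1]
          exact add_le_add_right (add_le_add t1 t2) _
  have hS : 0 ≤ ∑ k ∈ Finset.Ico 1 m, ff (l / 2) k :=
    Finset.sum_nonneg fun k _ => ff_nonneg hμ k
  rw [← ENNReal.ofReal_sum_of_nonneg (fun k _ => ff_nonneg hμ k),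
    ← ENNReal.ofReal_add hS hS, ← ENNReal.ofReal_add (Real.exp_pos _).le (Real.exp_pos _).le,
    ← ENNReal.ofReal_add (ff_nonneg hμ 0) (by linarith),
    ← ENNReal.ofReal_add (by linarith [ff_nonneg hμ 0]) (by positivity), ← ENNReal.ofReal_one,
    ENNReal.ofReal_le_ofReal_iff (by have := ff_nonneg hμ 0; positivity)] at h1
  linarith

end ENN

end Pool.Agent.H99.Trap.F2
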